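import Pool.Agent.W872.SV.Stm

set_option autoImplicit false

namespace Pool.Agent.W159.SV.ACNT

open Finset W872.SV

theorem main : W872.SV.PartCA → W872.SV.PartIND → W872.SV.PartACNT := by
  classical
  intro hCA hIND n M m hm hn
  set S : Finset ((Fin n × Fin n × Fin n × Fin n) × Equiv.Perm (Fin n)) :=
    univ.filter fun T => M < mv T.2 with hS
  set F : (Fin n × Fin n × Fin n × Fin n) × Equiv.Perm (Fin n) → Finset (SimpleGraph (Fin n)) :=
    fun T => univ.filter fun G : SimpleGraph (Fin n) => Rel G T.1.1 T.1.2.1 T.1.2.2.1 T.1.2.2.2 T.2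
    with hF
  have hsub : setA n M ⊆ S.biUnion F := by
    intro G hG
    unfold setA at hG
    rw [mem_filter] at hG
    obtain ⟨-, i, i', j, j', φ, hR, hM⟩ := hG
    rw [mem_biUnion]
    refine ⟨((i, i', j, j'), φ), ?_, ?_⟩
    · rw [hS, mem_filter]
      exact ⟨mem_univ _, hM⟩
    · rw [hF]
      simp only [mem_filter, mem_univ, true_and]
      exact hR
  have h1 : (setA n M).card ≤ ∑ T ∈ S, (F T).card :=
    (card_le_card hsub).trans card_biUnion_le
  have h2 : ∀ T ∈ S, (F T).card * 2 ^ (m * (n - 2 * m)) ≤ 2 ^ (n.choose 2) := by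
    intro T hT
    rw [hS, mem_filter] at hT
    have hT2 := hT.2
    obtain ⟨U, hUK, hcard, hU⟩ := hIND n (univ.filter fun x => T.2 x ≠ x) T.2
      (fun i hi => (mem_filter.mp hi).2)
    have hmv : mv T.2 = (univ.filter fun x => T.2 x ≠ x).card := by
      unfold mv
      first | rfl | congr
    have hUm : m ≤ U.card := by
      rw [← hmv] at hcard
      omega
    obtain ⟨A, hAU, hAc⟩ := Finset.exists_subset_card_eq hUm
    have h3 := hCA n T.1.1 T.1.2.1 T.1.2.2.1 T.1.2.2.2 T.2 A
      (fun a ha h => hU a (hAU ha) (hAU h))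
    rw [hAc] at h3
    refine le_trans (le_of_eq ?_) h3
    first
      | rfl
      | (congr 2; done)
      | (congr 2; rw [hF]; congr)
  have h4 : S.card ≤ n ^ 4 * n.factorial := by
    calc S.card ≤ (univ : Finset ((Fin n × Fin n × Fin n × Fin n) × Equiv.Perm (Fin n))).card :=
          card_le_card (filter_subset _ _)
      _ = n ^ 4 * n.factorial := by
          rw [card_univ, Fintype.card_prod, Fintype.card_prod, Fintype.card_prod,
            Fintype.card_prod, Fintype.card_perm, Fintype.card_fin]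
          ring
  calc (setA n M).card * 2 ^ (m * (n - 2 * m))
      ≤ (∑ T ∈ S, (F T).card) * 2 ^ (m * (n - 2 * m)) := Nat.mul_le_mul_right _ h1
    _ = ∑ T ∈ S, (F T).card * 2 ^ (m * (n - 2 * m)) := by rw [sum_mul]
    _ ≤ ∑ T ∈ S, 2 ^ (n.choose 2) := sum_le_sum h2
    _ = S.card * 2 ^ (n.choose 2) := by rw [sum_const, smul_eq_mul]
    _ ≤ n ^ 4 * n.factorial * 2 ^ (n.choose 2) := Nat.mul_le_mul_right _ h4

end Pool.Agent.W159.SV.ACNT
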